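import Pool.Agent.V7H53.FS.Core

/-! # The centralizer of the fusion system of a normal subgroup, elementwise -/

set_option autoImplicit false

namespace Pool.Agent.V7H53.FS

open Subgroup

variable {G : Type*} [Group G] [Finite G] {p : ℕ} [hp : Fact p.Prime]

section core

variable (S : Sylow p G) (H : Subgroup G) [hH : H.Normal]

/-- All `H`-fusion in `S ∩ H` extends to `G`-fusion in `S` fixing `X` pointwise. -/
def Ext (X : Subgroup G) : Prop :=
  ∀ P : Subgroup G, P ≤ (S : Subgroup G) ⊓ H → ∀ h ∈ H,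
    (∀ y ∈ P, h * y * h⁻¹ ∈ (S : Subgroup G) ⊓ H) →
    ∃ g : G, (∀ y ∈ P ⊔ X, g * y * g⁻¹ ∈ (S : Subgroup G)) ∧
      (∀ y ∈ P, g * y * g⁻¹ = h * y * h⁻¹) ∧ (∀ x ∈ X, g * x * g⁻¹ = x)

/-- The only `H`-conjugate of `x` in `S` is `x`. -/
def Iso (x : G) : Prop := x ∈ (S : Subgroup G) ∧ ∀ h ∈ H, h * x * h⁻¹ ∈ (S : Subgroup G) →
  h * x * h⁻¹ = x

lemma Iso.comm {x : G} (hx : Iso S H x) : ∀ t ∈ (S : Subgroup G) ⊓ H, t * x = x * t := by
  intro t ht
  have h1 := hx.2 t ht.2 ((S : Subgroup G).mul_mem ((S : Subgroup G).mul_mem ht.1 hx.1)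
    ((S : Subgroup G).inv_mem ht.1))
  have h2 : t * x * t⁻¹ * t = x * t := by rw [h1]
  rw [← h2]; group

theorem iso_of_ext {X : Subgroup G} (hX : X ≤ (S : Subgroup G))
    (hXT : ∀ t ∈ (S : Subgroup G) ⊓ H, ∀ x ∈ X, t * x = x * t) (hext : Ext S H X) {x : G}
    (hx : x ∈ X) : Iso S H x := by
  refine ⟨hX hx, fun h hh hhx => ?_⟩
  refine isolated_of_ext S H (hX hx) (fun t ht => hXT t ht x hx) ?_ h
    ((le_sup_left : H ≤ H ⊔ zpowers x) hh) ?_
  · intro P hP h hh hhP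
    obtain ⟨g, -, hg, hgx⟩ := hext P hP h hh hhP
    exact ⟨g, hg, hgx x hx⟩
  · rw [← inf_eq S H (hX hx)]
    have hhK : h ∈ H ⊔ zpowers x := (le_sup_left : H ≤ H ⊔ zpowers x) hh
    have hxK : x ∈ H ⊔ zpowers x := (le_sup_right : zpowers x ≤ H ⊔ zpowers x) (mem_zpowers x)
    exact ⟨hhx, (H ⊔ zpowers x).mul_mem ((H ⊔ zpowers x).mul_mem hhK hxK)
      ((H ⊔ zpowers x).inv_mem hhK)⟩

/-- The subgroup generated by the isolated elements. -/
def D : Subgroup G := closure {x | Iso S H x}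

lemma D_le : D S H ≤ (S : Subgroup G) := (closure_le _).2 fun _ hx => hx.1

lemma D_comm : ∀ t ∈ (S : Subgroup G) ⊓ H, ∀ x ∈ D S H, t * x = x * t := by
  intro t ht x hx
  have h1 : D S H ≤ centralizer {t} := by
    refine (closure_le _).2 fun y hy => ?_
    show y ∈ centralizer {t}
    rw [mem_centralizer_singleton_iff]
    exact (hy.comm S H t ht).symm
  exact (mem_centralizer_singleton_iff.1 (h1 hx)).symm

lemma D_fix {h : G} (hh : h ∈ H) (hD : ∀ x ∈ D S H, h * x * h⁻¹ ∈ (S : Subgroup G)) :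
    ∀ x ∈ D S H, h * x = x * h := by
  intro x hx
  have h1 : D S H ≤ centralizer {h} := by
    refine (closure_le _).2 fun y hy => ?_
    show y ∈ centralizer {h}
    rw [mem_centralizer_singleton_iff]
    have h2 := hy.2 h hh (hD y (subset_closure hy))
    have h3 : h * y * h⁻¹ * h = y * h := by rw [h2]
    rw [← h3]; group
  exact (mem_centralizer_singleton_iff.1 (h1 hx)).symm

/-- the intersection of a Sylow subgroup with `H D`, for a subgroup `D` of it -/
lemma sylIn_sup' {R : Subgroup G} (hR : R ≤ (S : Subgroup G)) :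
    SylIn p (H ⊔ R) ((S : Subgroup G) ⊓ (H ⊔ R)) := by
  refine ⟨inf_le_right, S.2.to_le inf_le_left, ?_⟩
  intro k hk
  set S' : Subgroup G := (S : Subgroup G) with hS'
  set K := H ⊔ R with hK
  have e1 : (S' ⊓ K) ⊔ H = K := by
    apply le_antisymm
    · exact sup_le inf_le_right le_sup_left
    · rw [hK]
      refine sup_le le_sup_right ?_
      refine le_trans ?_ le_sup_left
      exact fun y hy => ⟨hR hy, (le_sup_right : R ≤ H ⊔ R) hy⟩
  have c1 : Nat.card K = Nat.card H * H.relIndex (S' ⊓ K) := by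
    rw [← relIndex_sup_right, e1, mul_comm]
    have := Subgroup.relIndex_mul_relIndex (⊥ : Subgroup G) H K bot_le (le_sup_left)
    rw [relIndex_bot_left, relIndex_bot_left] at this
    rw [← this, mul_comm]
  have c2 : Nat.card (S' ⊓ K : Subgroup G) = Nat.card (S' ⊓ H : Subgroup G) * H.relIndex (S' ⊓ K) := by
    have := Subgroup.relIndex_mul_relIndex (⊥ : Subgroup G) (H ⊓ (S' ⊓ K)) (S' ⊓ K) bot_le inf_le_right
    rw [relIndex_bot_left, relIndex_bot_left, inf_relIndex_right] at this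
    rw [← this]
    congr 1
    have : H ⊓ (S' ⊓ K) = S' ⊓ H := by
      apply le_antisymm
      · exact fun y hy => ⟨hy.2.1, hy.1⟩
      · exact fun y hy => ⟨hy.2, hy.1, (le_sup_left : H ≤ K) hy.2⟩
    rw [this]
  have c3 : Nat.card (S' ⊔ H : Subgroup G) = Nat.card H * H.relIndex S' := by
    rw [← relIndex_sup_right]
    have := Subgroup.relIndex_mul_relIndex (⊥ : Subgroup G) H (S' ⊔ H) bot_le (le_sup_right)
    rw [relIndex_bot_left, relIndex_bot_left] at this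
    rw [← this, mul_comm, mul_comm]
  have c4 : Nat.card S' = Nat.card (S' ⊓ H : Subgroup G) * H.relIndex S' := by
    have := Subgroup.relIndex_mul_relIndex (⊥ : Subgroup G) (S' ⊓ H) S' bot_le inf_le_left
    rw [relIndex_bot_left, relIndex_bot_left, inf_relIndex_left] at this
    rw [← this]
  obtain ⟨m, hm⟩ : Nat.card (S' ⊓ H : Subgroup G) ∣ Nat.card H := Subgroup.card_dvd_of_le inf_le_right
  have hco : (p ^ k).Coprime m := by
    apply Nat.Coprime.pow_left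
    have h1 : Nat.card (S' ⊔ H : Subgroup G) ∣ Nat.card G := Subgroup.card_subgroup_dvd_card _
    have h2 : Nat.card G = Nat.card S' * S'.index := (Subgroup.card_mul_index S').symm
    have h3 : Nat.card (S' ⊔ H : Subgroup G) = Nat.card S' * m := by
      rw [c3, hm, c4]; ring
    rw [h3, h2] at h1
    have h4 : m ∣ S'.index := Nat.dvd_of_mul_dvd_mul_left Nat.card_pos h1
    have h5 : ¬ p ∣ S'.index := S.not_dvd_index
    exact (Nat.Prime.coprime_iff_not_dvd hp.out).2 (fun h => h5 (h.trans h4))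
  rw [c1, hm] at hk
  rw [c2]
  have : Nat.card (S' ⊓ H : Subgroup G) * m * H.relIndex (S' ⊓ K)
      = m * (Nat.card (S' ⊓ H : Subgroup G) * H.relIndex (S' ⊓ K)) := by ring
  rw [this] at hk
  exact hco.dvd_of_dvd_mul_left hk

/-- All `H`-fusion in `S ∩ H` extends to fusion by elements of `H` centralizing `D`. -/
theorem D_ext' (P : Subgroup G) (hP : P ≤ (S : Subgroup G) ⊓ H) (h : G) (hh : h ∈ H)
    (hhP : ∀ y ∈ P, h * y * h⁻¹ ∈ (S : Subgroup G) ⊓ H) :
    ∃ g ∈ H, (∀ y ∈ P, g * y * g⁻¹ = h * y * h⁻¹) ∧ ∀ x ∈ D S H, g * x = x * g := by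
  set R := D S H with hRd
  have hRS : R ≤ (S : Subgroup G) := D_le S H
  have hRT := D_comm S H
  set K := H ⊔ R with hK
  have hS1 : SylIn p K ((S : Subgroup G) ⊓ K) := sylIn_sup' S H hRS
  have hhK : h ∈ K := (le_sup_left : H ≤ K) hh
  have hRK : R ≤ K := le_sup_right
  set Q := cj h P with hQ
  have hQT : Q ≤ (S : Subgroup G) ⊓ H := cj_le.2 hhP
  set L := K ⊓ centralizer (Q : Set G) with hL
  have hRL : R ≤ L := by
    intro x hx
    refine ⟨hRK hx, ?_⟩
    show x ∈ centralizer (Q : Set G)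
    rw [mem_centralizer_iff]
    intro z hz
    exact hRT z (hQT hz) x hx
  have hRhL : cj h R ≤ L := by
    rw [cj_le]
    intro x hx
    refine ⟨K.mul_mem (K.mul_mem hhK (hRK hx)) (K.inv_mem hhK), ?_⟩
    show h * x * h⁻¹ ∈ centralizer (Q : Set G)
    rw [mem_centralizer_iff]
    intro z hz
    have hz' : h⁻¹ * z * h ∈ P := mem_cj.1 hz
    have h1 := hRT _ (hP hz') x hx
    have h2 : h * (h⁻¹ * z * h * x) * h⁻¹ = h * (x * (h⁻¹ * z * h)) * h⁻¹ := by rw [h1]
    have e1 : h * (h⁻¹ * z * h * x) * h⁻¹ = z * (h * x * h⁻¹) := by group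
    have e2 : h * (x * (h⁻¹ * z * h)) * h⁻¹ = h * x * h⁻¹ * z := by group
    rw [e1, e2] at h2
    exact h2
  have hRp : IsPGroup p R := S.2.to_le hRS
  have hRp' : IsPGroup p (cj h R) := hRp.map _
  obtain ⟨M, hM, hRM⟩ := exists_sylIn (p := p) hRL hRp
  obtain ⟨k, hkL, hk⟩ := sylIn_conj hM hRhL hRp'
  obtain ⟨u, huK, hu⟩ := sylIn_conj hS1 (hM.le.trans inf_le_left) hM.pg
  -- elements of `K` conjugating `R` into `S`
  have key : ∀ v ∈ K, (∀ x ∈ R, v * x * v⁻¹ ∈ (S : Subgroup G)) →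
      ∃ c ∈ H, ∃ d ∈ R, v = c * d ∧ ∀ x ∈ R, c * x = x * c := by
    intro v hv hvR
    obtain ⟨c, hc, d, hd, e⟩ := exists_of_mem_sup (fun m _ b hb => hH.conj_mem b hb m) hv
    refine ⟨c, hc, d, hd, e, D_fix S H hc fun x hx => ?_⟩
    have h1 := hvR (d⁻¹ * x * d) (R.mul_mem (R.mul_mem (R.inv_mem hd) hx) hd)
    have e1 : v * (d⁻¹ * x * d) * v⁻¹ = c * x * c⁻¹ := by rw [e]; group
    rwa [e1] at h1
  obtain ⟨c, hc, d, hd, e, hcR⟩ := key u huK fun x hx => (hu x (hRM hx)).1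
  obtain ⟨c', hc', d', hd', e', hcR'⟩ := key (u * k * h)
    (K.mul_mem (K.mul_mem huK hkL.1) hhK) fun x hx => by
      have h1 := (hu _ (hk _ (conj_mem_cj hx))).1
      have e1 : u * (k * (h * x * h⁻¹) * k⁻¹) * u⁻¹ = (u * k * h) * x * (u * k * h)⁻¹ := by group
      rwa [e1] at h1
  refine ⟨c⁻¹ * c', H.mul_mem (H.inv_mem hc) hc', fun y hy => ?_, fun x hx => ?_⟩
  · -- `k h = d⁻¹ c⁻¹ c' d'`
    have h1 : k * h = d⁻¹ * (c⁻¹ * c') * d' := by
      have h2 : u⁻¹ * (u * k * h) = k * h := by group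
      rw [← h2, e', e]; group
    have hyT := hP hy
    have h3 : d' * y * d'⁻¹ = y := by
      have := hRT y hyT d' hd'
      rw [← this]; group
    have h4 : h * y * h⁻¹ ∈ Q := conj_mem_cj hy
    have h5 := mem_centralizer_iff.1 hkL.2 _ h4
    have h6 : k * (h * y * h⁻¹) * k⁻¹ = h * y * h⁻¹ := by
      have h7 : k * (h * y * h⁻¹) * k⁻¹ = (h * y * h⁻¹) * k * k⁻¹ := by rw [h5]
      rw [h7]; group
    have h8 := hRT _ (hQT h4) d hd
    have h9 : d * (h * y * h⁻¹) * d⁻¹ = h * y * h⁻¹ := by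
      have h7 : d * (h * y * h⁻¹) * d⁻¹ = (h * y * h⁻¹) * d * d⁻¹ := by rw [h8]
      rw [h7]; group
    calc c⁻¹ * c' * y * (c⁻¹ * c')⁻¹ = c⁻¹ * c' * (d' * y * d'⁻¹) * (c⁻¹ * c')⁻¹ := by rw [h3]
      _ = d * ((d⁻¹ * (c⁻¹ * c') * d') * y * (d⁻¹ * (c⁻¹ * c') * d')⁻¹) * d⁻¹ := by group
      _ = d * ((k * h) * y * (k * h)⁻¹) * d⁻¹ := by rw [h1]
      _ = d * (k * (h * y * h⁻¹) * k⁻¹) * d⁻¹ := by group
      _ = h * y * h⁻¹ := by rw [h6, h9]
  · have h1 : Commute c x := hcR x hx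
    have h2 : Commute c' x := hcR' x hx
    exact (h1.inv_left.mul_left h2).eq

theorem D_ext : Ext S H (D S H) := by
  intro P hP h hh hhP
  obtain ⟨g, -, hg, hgx⟩ := D_ext' S H P hP h hh hhP
  have hgx' : ∀ x ∈ D S H, g * x * g⁻¹ = x := fun x hx => by rw [hgx x hx]; group
  refine ⟨g, fun y hy => ?_, hg, hgx'⟩
  have h1 : P ⊔ D S H ≤ (S : Subgroup G).comap (MulAut.conj g).toMonoidHom := by
    refine sup_le (fun z hz => ?_) fun z hz => ?_
    · show g * z * g⁻¹ ∈ (S : Subgroup G)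
      rw [hg z hz]; exact (hhP z hz).1
    · show g * z * g⁻¹ ∈ (S : Subgroup G)
      rw [hgx' z hz]; exact D_le S H hz
  exact h1 hy

/-- the isolated elements form a subgroup -/
theorem mem_D {x : G} : x ∈ D S H ↔ Iso S H x :=
  ⟨fun hx => iso_of_ext S H (D_le S H) (D_comm S H) (D_ext S H) hx, fun hx => subset_closure hx⟩

end core

end Pool.Agent.V7H53.FS
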