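import Pool.Agent.V7H53.FS.Iso

/-! # Elements centralizing a normal subsystem are isolated -/

set_option autoImplicit false

namespace Pool.Agent.V7H53.FS

open Subgroup

section
variable {G : Type*} [Group G] {p : ℕ}

lemma exists_of_mem_sup {B M : Subgroup G} (hn : ∀ m ∈ M, ∀ b ∈ B, m * b * m⁻¹ ∈ B) {y : G}
    (hy : y ∈ B ⊔ M) : ∃ b ∈ B, ∃ m ∈ M, y = b * m := by
  let L : Subgroup G :=
    { carrier := {y | ∃ b ∈ B, ∃ m ∈ M, y = b * m}
      one_mem' := ⟨1, B.one_mem, 1, M.one_mem, by simp⟩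
      mul_mem' := by
        rintro _ _ ⟨b, hb, m, hm, rfl⟩ ⟨b', hb', m', hm', rfl⟩
        exact ⟨b * (m * b' * m⁻¹), B.mul_mem hb (hn m hm b' hb'), m * m', M.mul_mem hm hm',
          by group⟩
      inv_mem' := by
        rintro _ ⟨b, hb, m, hm, rfl⟩
        refine ⟨m⁻¹ * b⁻¹ * m⁻¹⁻¹, hn _ (M.inv_mem hm) _ (B.inv_mem hb), m⁻¹, M.inv_mem hm, ?_⟩
        group }
  have : B ⊔ M ≤ L := by
    apply sup_le
    · intro b hb; exact ⟨b, hb, 1, M.one_mem, by simp⟩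
    · intro m hm; exact ⟨1, B.one_mem, m, hm, by simp⟩
  exact this hy

lemma mem_left_of_coprime {B M : Subgroup G} (hn : ∀ m ∈ M, ∀ b ∈ B, m * b * m⁻¹ ∈ B)
    (hM : IsPGroup p M) {y : G} (hy : y ∈ B ⊔ M) (hco : (orderOf y).Coprime p) : y ∈ B := by
  obtain ⟨b, hb, m, hm, rfl⟩ := exists_of_mem_sup hn hy
  have hpow : ∀ k : ℕ, ∃ c ∈ B, (b * m) ^ k = c * m ^ k := by
    intro k
    induction k with
    | zero => exact ⟨1, B.one_mem, by simp⟩
    | succ k ih =>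
      obtain ⟨c, hc, e⟩ := ih
      refine ⟨c * (m ^ k * b * (m ^ k)⁻¹), B.mul_mem hc (hn _ (M.pow_mem hm k) _ hb), ?_⟩
      rw [pow_succ, e, pow_succ]; group
  obtain ⟨j, hj⟩ := hM ⟨m, hm⟩
  have hj' : m ^ p ^ j = 1 := congrArg Subtype.val hj
  obtain ⟨c, hc, e⟩ := hpow (p ^ j)
  rw [hj', mul_one] at e
  have h1 : (b * m) ^ p ^ j ∈ B := by rw [e]; exact hc
  have hco' : (orderOf (b * m)).Coprime (p ^ j) := Nat.Coprime.pow_right _ hco
  obtain ⟨i, hi⟩ := exists_pow_eq_self_of_coprime hco'.symm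
  rw [← hi]
  exact B.pow_mem h1 i

lemma eq_one_of_coprime {x h t : G} (h1 : h * x * h⁻¹ = x * t) (h2 : h * t = t * h)
    (hco : (orderOf h).Coprime p) (ht : ∃ k, t ^ p ^ k = 1) : t = 1 := by
  have key : ∀ n : ℕ, h ^ n * x * (h ^ n)⁻¹ = x * t ^ n := by
    intro n
    induction n with
    | zero => simp
    | succ n ih =>
      have e : h ^ (n + 1) * x * (h ^ (n + 1))⁻¹ = h * (h ^ n * x * (h ^ n)⁻¹) * h⁻¹ := by
        rw [pow_succ']; group
      have h3 : h * t ^ n = t ^ n * h := (Commute.pow_right (show Commute h t from h2) n).eq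
      rw [e, ih]
      calc h * (x * t ^ n) * h⁻¹ = (h * x * h⁻¹) * (h * t ^ n) * h⁻¹ := by group
        _ = (x * t) * (t ^ n * h) * h⁻¹ := by rw [h1, h3]
        _ = x * t ^ (n + 1) := by rw [pow_succ']; group
  have h4 := key (orderOf h)
  rw [pow_orderOf_eq_one] at h4
  have h5 : t ^ orderOf h = 1 := by
    have : x = x * t ^ orderOf h := by simpa using h4
    exact (mul_eq_left.1 this.symm)
  obtain ⟨k, hk⟩ := ht
  have h6 : orderOf t ∣ orderOf h := orderOf_dvd_of_pow_eq_one h5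
  have h7 : orderOf t ∣ p ^ k := orderOf_dvd_of_pow_eq_one hk
  have h8 : orderOf t = 1 := Nat.eq_one_of_dvd_coprimes (Nat.Coprime.pow_right k hco) h6 h7
  exact orderOf_eq_one_iff.1 h8

end

variable {G : Type*} [Group G] [Finite G] {p : ℕ} [hp : Fact p.Prime]

/-- the intersection of a Sylow subgroup with `H⟨x⟩` -/
lemma sylIn_sup (S : Sylow p G) (H : Subgroup G) [H.Normal] {x : G} (hx : x ∈ (S : Subgroup G)) :
    SylIn p (H ⊔ zpowers x) ((S : Subgroup G) ⊓ (H ⊔ zpowers x)) := by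
  refine ⟨inf_le_right, S.2.to_le inf_le_left, ?_⟩
  intro k hk
  set S' : Subgroup G := (S : Subgroup G) with hS'
  set K := H ⊔ zpowers x with hK
  have e1 : (S' ⊓ K) ⊔ H = K := by
    apply le_antisymm
    · exact sup_le inf_le_right le_sup_left
    · rw [hK]
      refine sup_le le_sup_right ?_
      refine le_trans ?_ le_sup_left
      rw [zpowers_le]
      exact ⟨hx, (le_sup_right : zpowers x ≤ H ⊔ zpowers x) (mem_zpowers x)⟩
  have c1 : Nat.card K = Nat.card H * H.relIndex (S' ⊓ K) := by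
    rw [← relIndex_sup_right, e1, mul_comm]
    have := Subgroup.relIndex_mul_relIndex (⊥ : Subgroup G) H K bot_le (le_sup_left)
    rw [relIndex_bot_left, relIndex_bot_left] at this
    rw [← this, mul_comm]
  have c2 : Nat.card (S' ⊓ K : Subgroup G) = Nat.card (S' ⊓ H : Subgroup G) * H.relIndex (S' ⊓ K) := by
    have := Subgroup.relIndex_mul_relIndex (⊥ : Subgroup G) (H ⊓ (S' ⊓ K)) (S' ⊓ K) bot_le inf_le_right
    rw [relIndex_bot_left, relIndex_bot_left, inf_relIndex_right] at this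
    rw [← this]
    congr 1
    have : H ⊓ (S' ⊓ K) = S' ⊓ H := by
      apply le_antisymm
      · exact fun y hy => ⟨hy.2.1, hy.1⟩
      · exact fun y hy => ⟨hy.2, hy.1, (le_sup_left : H ≤ K) hy.2⟩
    rw [this]
  have c3 : Nat.card (S' ⊔ H : Subgroup G) = Nat.card H * H.relIndex S' := by
    rw [← relIndex_sup_right]
    have := Subgroup.relIndex_mul_relIndex (⊥ : Subgroup G) H (S' ⊔ H) bot_le (le_sup_right)
    rw [relIndex_bot_left, relIndex_bot_left] at this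
    rw [← this, mul_comm, mul_comm]
  have c4 : Nat.card S' = Nat.card (S' ⊓ H : Subgroup G) * H.relIndex S' := by
    have := Subgroup.relIndex_mul_relIndex (⊥ : Subgroup G) (S' ⊓ H) S' bot_le inf_le_left
    rw [relIndex_bot_left, relIndex_bot_left, inf_relIndex_left] at this
    rw [← this]
  obtain ⟨m, hm⟩ : Nat.card (S' ⊓ H : Subgroup G) ∣ Nat.card H := Subgroup.card_dvd_of_le inf_le_right
  have hr' : 0 < H.relIndex S' := Nat.pos_of_ne_zero (fun h => by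
    rw [h, mul_zero] at c4
    exact (Nat.card_pos (α := S')).ne' c4)
  have hco : (p ^ k).Coprime m := by
    apply Nat.Coprime.pow_left
    have h1 : Nat.card (S' ⊔ H : Subgroup G) ∣ Nat.card G := Subgroup.card_subgroup_dvd_card _
    have h2 : Nat.card G = Nat.card S' * S'.index := (Subgroup.card_mul_index S').symm
    have h3 : Nat.card (S' ⊔ H : Subgroup G) = Nat.card S' * m := by
      rw [c3, hm, c4]; ring
    rw [h3, h2] at h1
    have h4 : m ∣ S'.index := Nat.dvd_of_mul_dvd_mul_left Nat.card_pos h1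
    have h5 : ¬ p ∣ S'.index := S.not_dvd_index
    exact (Nat.Prime.coprime_iff_not_dvd hp.out).2 (fun h => h5 (h.trans h4))
  rw [c1, hm] at hk
  rw [c2]
  have : Nat.card (S' ⊓ H : Subgroup G) * m * H.relIndex (S' ⊓ K)
      = m * (Nat.card (S' ⊓ H : Subgroup G) * H.relIndex (S' ⊓ K)) := by ring
  rw [this] at hk
  exact hco.dvd_of_dvd_mul_left hk

section core

variable (S : Sylow p G) (H : Subgroup G) [hH : H.Normal] {x : G}

lemma mem_form (hx : x ∈ (S : Subgroup G)) {y : G} (hy : y ∈ (S : Subgroup G) ⊓ (H ⊔ zpowers x)) :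
    ∃ t ∈ (S : Subgroup G) ⊓ H, ∃ i : ℤ, y = t * x ^ i := by
  obtain ⟨b, hb, m, hm, e⟩ := exists_of_mem_sup (fun m _ b hb => hH.conj_mem b hb m) hy.2
  obtain ⟨i, rfl⟩ := mem_zpowers_iff.1 hm
  refine ⟨b, ⟨?_, hb⟩, i, e⟩
  have h1 : b = y * (x ^ i)⁻¹ := by rw [e]; group
  rw [h1]
  exact (S : Subgroup G).mul_mem hy.1 ((S : Subgroup G).inv_mem ((S : Subgroup G).zpow_mem hx i))

lemma inf_eq (hx : x ∈ (S : Subgroup G)) :
    (S : Subgroup G) ⊓ (H ⊔ zpowers x) = ((S : Subgroup G) ⊓ H) ⊔ zpowers x := by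
  apply le_antisymm
  · intro y hy
    obtain ⟨t, ht, i, rfl⟩ := mem_form S H hx hy
    exact mul_mem ((le_sup_left : (S : Subgroup G) ⊓ H ≤ _) ht)
      ((le_sup_right : zpowers x ≤ _) (zpow_mem (mem_zpowers x) i))
  · refine sup_le (inf_le_inf_left _ le_sup_left) ?_
    rw [zpowers_le]
    exact ⟨hx, (le_sup_right : zpowers x ≤ H ⊔ zpowers x) (mem_zpowers x)⟩

lemma comm_of_mem (hx : x ∈ (S : Subgroup G))
    (hxT : ∀ t ∈ (S : Subgroup G) ⊓ H, t * x = x * t) :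
    ∀ s ∈ (S : Subgroup G) ⊓ (H ⊔ zpowers x), s * x = x * s := by
  intro s hs
  obtain ⟨t, ht, i, rfl⟩ := mem_form S H hx hs
  have h1 : Commute t x := hxT t ht
  exact (h1.mul_left ((Commute.refl x).zpow_left i)).eq

/-- The main step: the normalizers of fully normalized subgroups containing `x` centralize `x`. -/
theorem norm_comm (hx : x ∈ (S : Subgroup G)) (hxT : ∀ t ∈ (S : Subgroup G) ⊓ H, t * x = x * t)
    (hext : ∀ P : Subgroup G, P ≤ (S : Subgroup G) ⊓ H → ∀ h ∈ H,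
      (∀ y ∈ P, h * y * h⁻¹ ∈ (S : Subgroup G) ⊓ H) →
      ∃ g : G, (∀ y ∈ P, g * y * g⁻¹ = h * y * h⁻¹) ∧ g * x * g⁻¹ = x)
    (P M : Subgroup G) (hP : P ≤ (S : Subgroup G) ⊓ (H ⊔ zpowers x)) (hxP : x ∈ P)
    (hMS : M ≤ (S : Subgroup G) ⊓ (H ⊔ zpowers x)) (_hPM : P ≤ M)
    (hM : SylIn p ((H ⊔ zpowers x) ⊓ normalizer (P : Set G)) M) :
    ∀ n ∈ (H ⊔ zpowers x) ⊓ normalizer (P : Set G), n * x = x * n := by
  set K := H ⊔ zpowers x with hK
  have hcomm := comm_of_mem S H hx hxT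
  have hxp : IsPGroup p (zpowers x) := S.2.to_le (by rw [zpowers_le]; exact hx)
  let C : Subgroup G := centralizer {x}
  have hC : ∀ {y : G}, y ∈ C ↔ y * x = x * y := by
    intro y
    rw [mem_centralizer_singleton_iff]
  have hMC : M ≤ C := fun m hm => hC.2 (hcomm m (hMS hm))
  let B : Subgroup G := H ⊓ normalizer (P : Set G) ⊓ centralizer ((P ⊓ H : Subgroup G) : Set G)
  have hPform : ∀ y ∈ P, ∃ t ∈ P ⊓ H, ∃ i : ℤ, y = t * x ^ i := by
    intro y hy
    obtain ⟨t, ht, i, e⟩ := mem_form S H hx (hP hy)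
    refine ⟨t, ⟨?_, ht.2⟩, i, e⟩
    have h1 : t = y * (x ^ i)⁻¹ := by rw [e]; group
    rw [h1]
    exact P.mul_mem hy (P.inv_mem (P.zpow_mem hxP i))
  -- the element `x⁻¹ h x h⁻¹`
  have htmem : ∀ h ∈ H ⊓ normalizer (P : Set G), x⁻¹ * (h * x * h⁻¹) ∈ P ⊓ H := by
    intro h hh
    refine ⟨P.mul_mem (P.inv_mem hxP) ((mem_normalizer_iff.1 hh.2 x).1 hxP), ?_⟩
    have e : x⁻¹ * (h * x * h⁻¹) = (x⁻¹ * h * x⁻¹⁻¹) * h⁻¹ := by group
    show x⁻¹ * (h * x * h⁻¹) ∈ H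
    rw [e]
    exact H.mul_mem (hH.conj_mem h hh.1 _) (H.inv_mem hh.1)
  have hpelt : ∀ t ∈ P ⊓ H, ∃ k, t ^ p ^ k = 1 := by
    intro t ht
    obtain ⟨k, hk⟩ := S.2 ⟨t, (hP ht.1).1⟩
    exact ⟨k, congrArg Subtype.val hk⟩
  have hMB : ∀ m ∈ M, ∀ b ∈ B, m * b * m⁻¹ ∈ B := by
    intro m hm b hb
    have hmN := (hM.le hm).2
    have hmN' : m ∈ normalizer (P : Set G) := hmN
    refine ⟨⟨hH.conj_mem b hb.1.1 m, (normalizer (P : Set G)).mul_mem
      ((normalizer (P : Set G)).mul_mem hmN' hb.1.2) ((normalizer (P : Set G)).inv_mem hmN')⟩, ?_⟩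
    show m * b * m⁻¹ ∈ centralizer ((P ⊓ H : Subgroup G) : Set G)
    rw [mem_centralizer_iff]
    intro z hz
    have hz' : m⁻¹ * z * m ∈ P ⊓ H := by
      refine ⟨(mem_normalizer_iff''.1 hmN' z).1 hz.1, ?_⟩
      have := hH.conj_mem z hz.2 m⁻¹
      simpa using this
    have h1 := mem_centralizer_iff.1 hb.2 _ hz'
    have h2 : m * (m⁻¹ * z * m * b) * m⁻¹ = m * (b * (m⁻¹ * z * m)) * m⁻¹ := by rw [h1]
    have e1 : m * (m⁻¹ * z * m * b) * m⁻¹ = z * (m * b * m⁻¹) := by group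
    have e2 : m * (b * (m⁻¹ * z * m)) * m⁻¹ = m * b * m⁻¹ * z := by group
    rw [e1, e2] at h2
    exact h2
  have hBN : B ≤ K ⊓ normalizer (P : Set G) := fun b hb => ⟨(le_sup_left : H ≤ K) hb.1.1, hb.1.2⟩
  have hBC : B ≤ C := by
    have h1 : SylIn p (B ⊔ M) M :=
      ⟨le_sup_right, hM.pg, fun k hk =>
        hM.dvd k (hk.trans (Subgroup.card_dvd_of_le (sup_le hBN hM.le)))⟩
    refine le_trans le_sup_left (le_of_syl h1 hMC ?_)
    intro y hy hco
    have hyB : y ∈ B := mem_left_of_coprime hMB hM.pg hy hco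
    have ht := htmem y hyB.1
    have h2 : y * x * y⁻¹ = x * (x⁻¹ * (y * x * y⁻¹)) := by group
    have h3 := (mem_centralizer_iff.1 hyB.2 _ ht).symm
    have h4 := eq_one_of_coprime h2 h3 hco (hpelt _ ht)
    rw [h4, mul_one] at h2
    rw [hC]
    have h5 := congrArg (· * y) h2
    simpa using h5
  have hNC : K ⊓ normalizer (P : Set G) ≤ C := by
    refine le_of_syl hM hMC ?_
    intro h hh hco
    have hhH : h ∈ H := mem_left_of_coprime (fun m _ b hb => hH.conj_mem b hb m) hxp hh.1 hco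
    have hhN : h ∈ normalizer (P : Set G) := hh.2
    set t := x⁻¹ * (h * x * h⁻¹) with ht
    have htm : t ∈ P ⊓ H := htmem h ⟨hhH, hhN⟩
    have h1 : h * x * h⁻¹ = x * t := by rw [ht]; group
    have hconj : ∀ y ∈ P ⊓ H, h * y * h⁻¹ ∈ P ⊓ H := fun y hy =>
      ⟨(mem_normalizer_iff.1 hhN y).1 hy.1, hH.conj_mem y hy.2 h⟩
    have hconj' : ∀ y ∈ P ⊓ H, h⁻¹ * y * h ∈ P ⊓ H := fun y hy =>
      ⟨(mem_normalizer_iff''.1 hhN y).1 hy.1, by
        have := hH.conj_mem y hy.2 h⁻¹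
        simpa using this⟩
    have hPT : P ⊓ H ≤ (S : Subgroup G) ⊓ H := fun y hy => ⟨(hP hy.1).1, hy.2⟩
    obtain ⟨g, hg, hgx⟩ := hext (P ⊓ H) hPT h hhH (fun y hy => hPT (hconj y hy))
    -- `b = h⁻¹ (g h g⁻¹)`
    set b := h⁻¹ * (g * h * g⁻¹) with hb
    have hbH : b ∈ H := mul_mem (inv_mem hhH) (hH.conj_mem h hhH g)
    have hbc : ∀ z ∈ P ⊓ H, b * z * b⁻¹ = z := by
      intro z hz
      have h2 := hg _ (hconj' z hz)
      have e0 : h * (h⁻¹ * z * h) * h⁻¹ = z := by group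
      rw [e0] at h2
      have h3 : g⁻¹ * z * g = h⁻¹ * z * h := by
        have h3a : g⁻¹ * (g * (h⁻¹ * z * h) * g⁻¹) * g = g⁻¹ * z * g := by rw [h2]
        have h3b : g⁻¹ * (g * (h⁻¹ * z * h) * g⁻¹) * g = h⁻¹ * z * h := by group
        rw [← h3a, h3b]
      calc b * z * b⁻¹ = h⁻¹ * (g * (h * (g⁻¹ * z * g) * h⁻¹) * g⁻¹) * h := by rw [hb]; group
        _ = h⁻¹ * (g * (h * (h⁻¹ * z * h) * h⁻¹) * g⁻¹) * h := by rw [h3]
        _ = h⁻¹ * (g * z * g⁻¹) * h := by rw [e0]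
        _ = h⁻¹ * (h * z * h⁻¹) * h := by rw [hg z hz]
        _ = z := by group
    have hgx' : g⁻¹ * x * g = x := by
      have : g⁻¹ * (g * x * g⁻¹) * g = g⁻¹ * x * g := by rw [hgx]
      have e : g⁻¹ * (g * x * g⁻¹) * g = x := by group
      rw [e] at this
      exact this.symm
    have hbx : b * x * b⁻¹ = (h⁻¹ * x * h) * t := by
      calc b * x * b⁻¹ = h⁻¹ * (g * (h * (g⁻¹ * x * g) * h⁻¹) * g⁻¹) * h := by rw [hb]; group
        _ = h⁻¹ * (g * (h * x * h⁻¹) * g⁻¹) * h := by rw [hgx']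
        _ = h⁻¹ * (g * (x * t) * g⁻¹) * h := by rw [h1]
        _ = h⁻¹ * ((g * x * g⁻¹) * (g * t * g⁻¹)) * h := by group
        _ = h⁻¹ * (x * (h * t * h⁻¹)) * h := by rw [hgx, hg t htm]
        _ = (h⁻¹ * x * h) * t := by group
    have hbN : b ∈ normalizer (P : Set G) := by
      apply mem_normalizer_fintype
      intro y hy
      obtain ⟨z, hz, i, rfl⟩ := hPform y hy
      have e : b * (z * x ^ i) * b⁻¹ = (b * z * b⁻¹) * (b * x * b⁻¹) ^ i := by
        rw [conj_zpow]; group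
      rw [e, hbc z hz, hbx]
      refine P.mul_mem hz.1 (P.zpow_mem (P.mul_mem ?_ htm.1) i)
      exact (mem_normalizer_iff''.1 hhN x).1 hxP
    have hbB : b ∈ B := by
      refine ⟨⟨hbH, hbN⟩, ?_⟩
      show b ∈ centralizer ((P ⊓ H : Subgroup G) : Set G)
      rw [mem_centralizer_iff]
      intro z hz
      have h2 := hbc z hz
      have h3 : b * z * b⁻¹ * b = z * b := by rw [h2]
      rw [← h3]; group
    have hbC := hC.1 (hBC hbB)
    have h5 : b * x * b⁻¹ = x := by rw [hbC]; group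
    rw [hbx] at h5
    -- `h` commutes with `t`
    have h6 : h * t = t * h := by
      have h7 : h * (h⁻¹ * x * h * t) * h⁻¹ = h * x * h⁻¹ := by rw [h5]
      have e : h * (h⁻¹ * x * h * t) * h⁻¹ = x * (h * t * h⁻¹) := by group
      rw [e, h1] at h7
      have h8 : h * t * h⁻¹ = t := mul_left_cancel h7
      have h9 : h * t * h⁻¹ * h = t * h := by rw [h8]
      rw [← h9]; group
    have h10 := eq_one_of_coprime h1 h6 hco (hpelt t htm)
    rw [h10, mul_one] at h1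
    rw [hC]
    have h11 := congrArg (· * h) h1
    simpa using h11
  exact fun n hn => hC.1 (hNC hn)

/-- An element `x` of `C_S(T)` such that all `H`-fusion in `T` extends to `G`-fusion fixing `x` is
isolated in `T⟨x⟩` with respect to `H⟨x⟩`. -/
theorem isolated_of_ext (hx : x ∈ (S : Subgroup G))
    (hxT : ∀ t ∈ (S : Subgroup G) ⊓ H, t * x = x * t)
    (hext : ∀ P : Subgroup G, P ≤ (S : Subgroup G) ⊓ H → ∀ h ∈ H,
      (∀ y ∈ P, h * y * h⁻¹ ∈ (S : Subgroup G) ⊓ H) →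
      ∃ g : G, (∀ y ∈ P, g * y * g⁻¹ = h * y * h⁻¹) ∧ g * x * g⁻¹ = x) :
    ∀ g ∈ H ⊔ zpowers x, g * x * g⁻¹ ∈ ((S : Subgroup G) ⊓ H) ⊔ zpowers x → g * x * g⁻¹ = x := by
  intro g hg h
  rw [← inf_eq S H hx] at h
  refine isolated (sylIn_sup S H hx) ?_ (comm_of_mem S H hx hxT) ?_ g hg h
  · exact ⟨hx, (le_sup_right : zpowers x ≤ H ⊔ zpowers x) (mem_zpowers x)⟩
  · exact fun P M hP hxP hMS hPM hM => norm_comm S H hx hxT hext P M hP hxP hMS hPM hM

/-- Conversely, if `x` is isolated then all `H`-fusion in `T` extends to fusion fixing `x`. -/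
theorem ext_of_isolated (hx : x ∈ (S : Subgroup G))
    (hxT : ∀ t ∈ (S : Subgroup G) ⊓ H, t * x = x * t)
    (hiso : ∀ g ∈ H ⊔ zpowers x, g * x * g⁻¹ ∈ ((S : Subgroup G) ⊓ H) ⊔ zpowers x →
      g * x * g⁻¹ = x) :
    ∀ P : Subgroup G, P ≤ (S : Subgroup G) ⊓ H → ∀ h ∈ H,
      (∀ y ∈ P, h * y * h⁻¹ ∈ (S : Subgroup G) ⊓ H) →
      ∃ g ∈ H ⊔ zpowers x, (∀ y ∈ P, g * y * g⁻¹ = h * y * h⁻¹) ∧ g * x * g⁻¹ = x := by
  intro P hP h hh hhP
  set K := H ⊔ zpowers x with hK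
  have hS1 := sylIn_sup (p := p) S H hx
  have hhK : h ∈ K := (le_sup_left : H ≤ K) hh
  have hxK : x ∈ K := (le_sup_right : zpowers x ≤ K) (mem_zpowers x)
  -- the centralizer of `Q = h P h⁻¹` in `K`
  set Q := cj h P with hQ
  have hQT : Q ≤ (S : Subgroup G) ⊓ H := cj_le.2 hhP
  set L := K ⊓ centralizer (Q : Set G) with hL
  have hxL : x ∈ L := by
    refine ⟨hxK, ?_⟩
    show x ∈ centralizer (Q : Set G)
    rw [mem_centralizer_iff]
    intro z hz
    exact hxT z (hQT hz)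
  have hxhL : h * x * h⁻¹ ∈ L := by
    refine ⟨K.mul_mem (K.mul_mem hhK hxK) (K.inv_mem hhK), ?_⟩
    show h * x * h⁻¹ ∈ centralizer (Q : Set G)
    rw [mem_centralizer_iff]
    intro z hz
    have hz' : h⁻¹ * z * h ∈ P := mem_cj.1 hz
    have h1 := hxT _ (hP hz')
    have h2 : h * (h⁻¹ * z * h * x) * h⁻¹ = h * (x * (h⁻¹ * z * h)) * h⁻¹ := by rw [h1]
    have e1 : h * (h⁻¹ * z * h * x) * h⁻¹ = z * (h * x * h⁻¹) := by group
    have e2 : h * (x * (h⁻¹ * z * h)) * h⁻¹ = h * x * h⁻¹ * z := by group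
    rw [e1, e2] at h2
    exact h2
  have hzp : IsPGroup p (zpowers x) := S.2.to_le (by rw [zpowers_le]; exact hx)
  have hzp' : IsPGroup p (zpowers (h * x * h⁻¹)) := by
    have h1 : zpowers (h * x * h⁻¹) = cj h (zpowers x) := by
      unfold cj
      rw [MonoidHom.map_zpowers]
      simp
    rw [h1]
    exact hzp.map _
  obtain ⟨M, hM, hxM⟩ := exists_sylIn (p := p) (show zpowers x ≤ L by rwa [zpowers_le]) hzp
  obtain ⟨k, hkL, hk⟩ := sylIn_conj hM (show zpowers (h * x * h⁻¹) ≤ L by rwa [zpowers_le]) hzp'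
  obtain ⟨u, huK, hu⟩ := sylIn_conj hS1 (hM.le.trans inf_le_left) hM.pg
  have h1 := hu _ (hxM (mem_zpowers x))
  have h2 := hu _ (hk _ (mem_zpowers _))
  rw [inf_eq S H hx] at h1 h2
  have h3 := hiso u huK h1
  have e : u * (k * (h * x * h⁻¹) * k⁻¹) * u⁻¹ = (u * k * h) * x * (u * k * h)⁻¹ := by group
  rw [e] at h2
  have h4 := hiso _ (K.mul_mem (K.mul_mem huK hkL.1) hhK) h2
  refine ⟨k * h, K.mul_mem hkL.1 hhK, fun y hy => ?_, ?_⟩
  · have h5 : h * y * h⁻¹ ∈ Q := conj_mem_cj hy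
    have h6 := mem_centralizer_iff.1 hkL.2 _ h5
    have e2 : k * h * y * (k * h)⁻¹ = (k * (h * y * h⁻¹)) * k⁻¹ := by group
    rw [e2, ← h6]; group
  · have h5 : u⁻¹ * ((u * k * h) * x * (u * k * h)⁻¹) * u = u⁻¹ * x * u := by rw [h4]
    have h6 : u⁻¹ * (u * x * u⁻¹) * u = u⁻¹ * x * u := by rw [h3]
    have e2 : u⁻¹ * (u * x * u⁻¹) * u = x := by group
    have e3 : u⁻¹ * ((u * k * h) * x * (u * k * h)⁻¹) * u = k * h * x * (k * h)⁻¹ := by group
    rw [e2] at h6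
    rw [e3, ← h6] at h5
    exact h5

end core

end Pool.Agent.V7H53.FS
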