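import Pool.Agent.V7H53.FS.Syl

/-! # An element of the centre of a Sylow subgroup fixed by the normalizers of the fully normalized
subgroups containing it is isolated -/

set_option autoImplicit false

namespace Pool.Agent.V7H53.FS

open Subgroup

variable {G : Type*} [Group G]

/-- `K ⊓ N(P)` after conjugation by an element of `K` -/
lemma cj_norm {K P : Subgroup G} {u : G} (hu : u ∈ K) :
    cj u (K ⊓ normalizer (P : Set G)) = K ⊓ normalizer ((cj u P : Subgroup G) : Set G) := by
  rw [cj_inf, cj_self hu, cj_normalizer]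

variable [Finite G] {p : ℕ} [hp : Fact p.Prime]

theorem isolated_aux {K S : Subgroup G} (hS : SylIn p K S) {x : G} (hxS : x ∈ S)
    (hxc : ∀ s ∈ S, s * x = x * s)
    (hN : ∀ P M : Subgroup G, P ≤ S → x ∈ P → M ≤ S → P ≤ M →
      SylIn p (K ⊓ normalizer (P : Set G)) M → ∀ n ∈ K ⊓ normalizer (P : Set G), n * x = x * n) :
    ∀ (N : ℕ) (P : Subgroup G), Nat.card S ≤ Nat.card P + N → P ≤ S → x ∈ P → ∀ g ∈ K,
      (∀ y ∈ P, g * y * g⁻¹ ∈ S) → g * x * g⁻¹ = x := by
  intro N
  induction N with
  | zero =>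
    intro P hc hPS hxP g hg hgP
    have hPe : P = S := Subgroup.eq_of_le_of_card_ge hPS (by simpa using hc)
    subst hPe
    have hgn : g ∈ normalizer (P : Set G) := mem_normalizer_fintype (fun n hn => hgP n hn)
    have hle : P ≤ K ⊓ normalizer (P : Set G) := le_inf hS.le le_normalizer
    have hM : SylIn p (K ⊓ normalizer (P : Set G)) P :=
      ⟨hle, hS.pg, fun k hk => hS.dvd k (hk.trans (Subgroup.card_dvd_of_le inf_le_left))⟩
    have := hN P P le_rfl hxP le_rfl le_rfl hM g ⟨hg, hgn⟩
    rw [this]; group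
  | succ N ih =>
    intro P hc hPS hxP g hg hgP
    rcases eq_or_lt_of_le hPS with hPe | hlt
    · exact ih P (by rw [hPe]; omega) hPS hxP g hg hgP
    -- the normalizer of `P`
    have hR0 := lt_inf_normalizer hS.pg hlt
    set R0 := S ⊓ normalizer (P : Set G) with hR0d
    have hR0p : IsPGroup p R0 := hS.pg.to_le inf_le_left
    obtain ⟨M0, hM0, hRM⟩ := exists_sylIn (p := p)
      (show R0 ≤ K ⊓ normalizer (P : Set G) from inf_le_inf_right _ hS.le) hR0p
    obtain ⟨u, huK, huM⟩ := sylIn_conj hS (hM0.le.trans inf_le_left) hM0.pg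
    have hcard : ∀ {A B : Subgroup G}, A < B → Nat.card A < Nat.card B := by
      intro A B hAB
      by_contra hcon
      exact hAB.ne (Subgroup.eq_of_le_of_card_ge hAB.le (by omega))
    have hux : u * x * u⁻¹ = x := by
      refine ih R0 ?_ inf_le_left ?_ u huK (fun y hy => huM y (hRM hy))
      · have := hcard hR0
        omega
      · exact hR0.le hxP
    -- the subgroup `Q = g P g⁻¹`
    have hQS : cj g P ≤ S := cj_le.2 hgP
    have hQlt : cj g P < S := by
      refine lt_of_le_of_ne hQS (fun h => ?_)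
      have h1 := card_cj g P
      rw [h] at h1
      have := hcard hlt
      omega
    have hR1 := lt_inf_normalizer hS.pg hQlt
    set R1 := S ⊓ normalizer ((cj g P : Subgroup G) : Set G) with hR1d
    have hR1p : IsPGroup p R1 := hS.pg.to_le inf_le_left
    have hMg : SylIn p (K ⊓ normalizer ((cj g P : Subgroup G) : Set G)) (cj g M0) := by
      rw [← cj_norm hg]; exact hM0.cj g
    obtain ⟨v, hv, hvR⟩ := sylIn_conj hMg
      (show R1 ≤ K ⊓ normalizer ((cj g P : Subgroup G) : Set G) from inf_le_inf_right _ hS.le) hR1p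
    have hxQ' : x ∈ R1 := by
      refine ⟨hxS, ?_⟩
      show x ∈ normalizer ((cj g P : Subgroup G) : Set G)
      rw [mem_normalizer_iff]
      intro y
      constructor
      · intro hy
        have h1 := hxc y (hQS hy)
        have : x * y * x⁻¹ = y := by rw [← h1]; group
        rwa [this]
      · intro hy
        have h1 := hxc _ (hQS hy)
        have : x * y * x⁻¹ = y := by
          have h2 : x * (x * y * x⁻¹) = x * (y * x) * x⁻¹ * 1 := by
            rw [← h1]; group
          have h3 : (x * y * x⁻¹) * x = x * y := by group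
          rw [h3] at h1
          have h4 : y = x * y * x⁻¹ := mul_left_cancel h1
          exact h4.symm
        rwa [this] at hy
    set w := u * g⁻¹ * v with hw
    have hwK : w ∈ K := K.mul_mem (K.mul_mem huK (K.inv_mem hg)) hv.1
    have hwR : ∀ y ∈ R1, w * y * w⁻¹ ∈ S := by
      intro y hy
      have h1 := hvR y hy
      rw [mem_cj] at h1
      have h2 := huM _ h1
      have e : u * (g⁻¹ * (v * y * v⁻¹) * g) * u⁻¹ = w * y * w⁻¹ := by rw [hw]; group
      rwa [e] at h2
    have hwx : w * x * w⁻¹ = x := by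
      refine ih R1 ?_ inf_le_left hxQ' w hwK hwR
      have h1 := hcard hR1
      rw [card_cj] at h1
      omega
    -- the conjugate `P* = u P u⁻¹`
    have hPu : cj u P ≤ S := cj_le.2 (fun y hy => huM y (hRM (hR0.le hy)))
    have hMu : SylIn p (K ⊓ normalizer ((cj u P : Subgroup G) : Set G)) (cj u M0) := by
      rw [← cj_norm huK]; exact hM0.cj u
    have hxPu : x ∈ cj u P := by
      have := conj_mem_cj (u := u) hxP
      rwa [hux] at this
    have hNu := hN (cj u P) (cj u M0) hPu hxPu (cj_le.2 huM)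
      (cj_mono (hR0.le.trans hRM)) hMu
    -- `w` conjugates `Q` to `P*`
    have hwQ : cj w (cj g P) = cj u P := by
      have hvn := hv.2
      have hvinv := (normalizer ((cj g P : Subgroup G) : Set G)).inv_mem hvn
      rw [mem_normalizer_iff] at hvinv
      ext y
      rw [mem_cj, mem_cj (u := u)]
      have h1 := hvinv (g * (u⁻¹ * y * u) * g⁻¹)
      have e1 : v⁻¹ * (g * (u⁻¹ * y * u) * g⁻¹) * v⁻¹⁻¹ = w⁻¹ * y * w := by rw [hw]; group
      rw [e1] at h1
      rw [← h1, mem_cj]
      have e2 : g⁻¹ * (g * (u⁻¹ * y * u) * g⁻¹) * g = u⁻¹ * y * u := by group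
      rw [e2]
    have hv' : w * v * w⁻¹ ∈ K ⊓ normalizer ((cj u P : Subgroup G) : Set G) := by
      rw [← hwQ, ← cj_norm hwK]
      exact conj_mem_cj hv
    have h5 := hNu _ hv'
    -- `v` commutes with `x`
    have h6 : v * x = x * v := by
      have h7 : w * x = x * w := by
        have := congrArg (· * w) hwx
        simpa [mul_assoc] using this
      have h8 : w⁻¹ * x = x * w⁻¹ := by
        have h9 : w⁻¹ * (w * x) * w⁻¹ = w⁻¹ * (x * w) * w⁻¹ := by rw [h7]
        have e1 : w⁻¹ * (w * x) * w⁻¹ = x * w⁻¹ := by group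
        have e2 : w⁻¹ * (x * w) * w⁻¹ = w⁻¹ * x := by group
        rw [e1, e2] at h9
        exact h9.symm
      have h10 : w * (v * x) * w⁻¹ = w * (x * v) * w⁻¹ := by
        calc w * (v * x) * w⁻¹ = w * v * (x * w⁻¹) := by group
          _ = w * v * (w⁻¹ * x) := by rw [h8]
          _ = (w * v * w⁻¹) * x := by group
          _ = x * (w * v * w⁻¹) := h5
          _ = (x * w) * v * w⁻¹ := by group
          _ = (w * x) * v * w⁻¹ := by rw [h7]
          _ = w * (x * v) * w⁻¹ := by group
      exact mul_left_cancel (mul_right_cancel h10)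
    -- conclusion
    have h11 : g * x * g⁻¹ = v * x * v⁻¹ := by
      have h12 : u⁻¹ * x * u = x := by
        have : u⁻¹ * (u * x * u⁻¹) * u = u⁻¹ * x * u := by rw [hux]
        have e : u⁻¹ * (u * x * u⁻¹) * u = x := by group
        rw [e] at this
        exact this.symm
      have h13 : u⁻¹ * (w * x * w⁻¹) * u = u⁻¹ * x * u := by rw [hwx]
      have e : u⁻¹ * (w * x * w⁻¹) * u = g⁻¹ * (v * x * v⁻¹) * g := by rw [hw]; group
      rw [e, h12] at h13
      have h14 : g * (g⁻¹ * (v * x * v⁻¹) * g) * g⁻¹ = g * x * g⁻¹ := by rw [h13]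
      have e2 : g * (g⁻¹ * (v * x * v⁻¹) * g) * g⁻¹ = v * x * v⁻¹ := by group
      rw [e2] at h14
      exact h14.symm
    rw [h11, h6]; group

/-- An element `x` of the centre of a Sylow `p`-subgroup `S` of `K` which is centralized by
`N_K(P)` for every subgroup `P` of `S` containing `x` and fully normalized (some Sylow subgroup of
`N_K(P)` lies in `S`) is isolated: it is the only conjugate of itself in `S`. -/
theorem isolated {K S : Subgroup G} (hS : SylIn p K S) {x : G} (hxS : x ∈ S)
    (hxc : ∀ s ∈ S, s * x = x * s)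
    (hN : ∀ P M : Subgroup G, P ≤ S → x ∈ P → M ≤ S → P ≤ M →
      SylIn p (K ⊓ normalizer (P : Set G)) M → ∀ n ∈ K ⊓ normalizer (P : Set G), n * x = x * n) :
    ∀ g ∈ K, g * x * g⁻¹ ∈ S → g * x * g⁻¹ = x := by
  intro g hg hgx
  refine isolated_aux hS hxS hxc hN (Nat.card S) (zpowers x) (by omega)
    ((zpowers_le).2 hxS) (mem_zpowers x) g hg ?_
  intro y hy
  obtain ⟨i, rfl⟩ := mem_zpowers_iff.1 hy
  rw [← conj_zpow]
  exact S.zpow_mem hgx i

/-- A subgroup `C` of a finite group containing a Sylow `p`-subgroup and all elements of order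
prime to `p` of a subgroup `L` contains `L`. -/
theorem le_of_syl {L M C : Subgroup G} (hM : SylIn p L M) (hMC : M ≤ C)
    (hC : ∀ y ∈ L, (orderOf y).Coprime p → y ∈ C) : L ≤ C := by
  have key : Nat.card L ∣ Nat.card (L ⊓ C : Subgroup G) := by
    rw [Nat.dvd_iff_prime_pow_dvd_dvd]
    intro q k hq hk
    by_cases hqp : q = p
    · subst hqp
      exact (hM.dvd k hk).trans (Subgroup.card_dvd_of_le (le_inf hM.le hMC))
    · have : Fact q.Prime := ⟨hq⟩
      obtain ⟨Q, hQ⟩ := Sylow.exists_subgroup_card_pow_prime q hk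
      have h1 : Q.map L.subtype ≤ L ⊓ C := by
        rintro _ ⟨y, hy, rfl⟩
        refine ⟨y.2, hC _ y.2 ?_⟩
        have h2 : orderOf y ∣ q ^ k := by
          rw [← hQ]
          exact Subgroup.orderOf_dvd_natCard _ hy
        have h3 : orderOf (L.subtype y) = orderOf y := by simp
        rw [h3]
        obtain ⟨j, -, hj⟩ := (Nat.dvd_prime_pow hq).1 h2
        rw [hj]
        exact Nat.Coprime.pow_left _ ((Nat.coprime_primes hq hp.out).2 hqp)
      have h4 : Nat.card (Q.map L.subtype) = q ^ k := by
        rw [← hQ]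
        exact Nat.card_congr (Subgroup.equivMapOfInjective _ _ L.subtype_injective).symm.toEquiv
      rw [← h4]
      exact Subgroup.card_dvd_of_le h1
  have h5 : L ⊓ C = L := Subgroup.eq_of_le_of_card_ge inf_le_left
    (Nat.le_of_dvd Nat.card_pos key)
  exact inf_eq_left.1 h5

end Pool.Agent.V7H53.FS
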