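import Mathlib

/-! # Sylow subgroups of subgroups, inside a fixed ambient finite group -/

set_option autoImplicit false

namespace Pool.Agent.V7H53.FS

open Subgroup

variable {G : Type*} [Group G] {p : ℕ}

/-- `M` is a Sylow `p`-subgroup of the subgroup `L`. -/
structure SylIn (p : ℕ) (L M : Subgroup G) : Prop where
  le : M ≤ L
  pg : IsPGroup p M
  dvd : ∀ k, p ^ k ∣ Nat.card L → p ^ k ∣ Nat.card M

/-- the conjugate `u L u⁻¹` -/
def cj (u : G) (L : Subgroup G) : Subgroup G := L.map (MulAut.conj u).toMonoidHom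

lemma mem_cj {u : G} {L : Subgroup G} {y : G} : y ∈ cj u L ↔ u⁻¹ * y * u ∈ L := by
  unfold cj
  constructor
  · rintro ⟨z, hz, rfl⟩
    have : u⁻¹ * (u * z * u⁻¹) * u = z := by group
    simpa [this, mul_assoc] using hz
  · intro h
    exact ⟨_, h, by simp [mul_assoc]⟩

lemma conj_mem_cj {u : G} {L : Subgroup G} {y : G} (hy : y ∈ L) : u * y * u⁻¹ ∈ cj u L := by
  rw [mem_cj]; simpa [mul_assoc] using hy

lemma cj_le {u : G} {L M : Subgroup G} : cj u L ≤ M ↔ ∀ y ∈ L, u * y * u⁻¹ ∈ M := by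
  constructor
  · intro h y hy; exact h (conj_mem_cj hy)
  · intro h y hy
    rw [mem_cj] at hy
    have := h _ hy
    have e : u * (u⁻¹ * y * u) * u⁻¹ = y := by group
    rwa [e] at this

lemma card_cj (u : G) (L : Subgroup G) : Nat.card (cj u L) = Nat.card L := by
  unfold cj
  exact Nat.card_congr (L.equivMapOfInjective _ (MulAut.conj u).injective).symm.toEquiv

lemma cj_normalizer (u : G) (L : Subgroup G) :
    cj u (normalizer (L : Set G)) = normalizer ((cj u L : Subgroup G) : Set G) := by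
  unfold cj
  exact map_equiv_normalizer_eq L (MulAut.conj u)

lemma cj_inf (u : G) (L M : Subgroup G) : cj u (L ⊓ M) = cj u L ⊓ cj u M := by
  ext y; simp [mem_cj, mem_inf]

lemma cj_self {u : G} {K : Subgroup G} (hu : u ∈ K) : cj u K = K := by
  ext y
  rw [mem_cj]
  constructor
  · intro h
    have := K.mul_mem (K.mul_mem hu h) (K.inv_mem hu)
    have e : u * (u⁻¹ * y * u) * u⁻¹ = y := by group
    rwa [e] at this
  · intro h
    exact K.mul_mem (K.mul_mem (K.inv_mem hu) h) hu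

lemma cj_mono {u : G} {L M : Subgroup G} (h : L ≤ M) : cj u L ≤ cj u M := by
  intro y hy; rw [mem_cj] at hy ⊢; exact h hy

lemma SylIn.cj {L M : Subgroup G} (h : SylIn p L M) (u : G) : SylIn p (cj u L) (cj u M) where
  le := cj_mono h.le
  pg := h.pg.map _
  dvd := fun k hk => by rw [card_cj] at hk ⊢; exact h.dvd k hk

variable [Finite G] [hp : Fact p.Prime]

lemma exists_sylIn {L R : Subgroup G} (hR : R ≤ L) (hRp : IsPGroup p R) :
    ∃ M, SylIn p L M ∧ R ≤ M := by
  have h1 : IsPGroup p (R.subgroupOf L) := hRp.comap_subtype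
  obtain ⟨Q, hQ⟩ := h1.exists_le_sylow
  refine ⟨(Q : Subgroup L).map L.subtype, ⟨map_subtype_le _, Q.2.map _, ?_⟩, ?_⟩
  · intro k hk
    have : Nat.card ((Q : Subgroup L).map L.subtype) = Nat.card Q :=
      Nat.card_congr (Subgroup.equivMapOfInjective _ _ L.subtype_injective).symm.toEquiv
    rw [this]
    exact Q.pow_dvd_card_of_pow_dvd_card hk
  · intro y hy
    exact ⟨⟨y, hR hy⟩, hQ (by rwa [mem_subgroupOf]), rfl⟩

lemma eq_of_le_of_dvd {M M' : Subgroup G} (h : M ≤ M') (hM' : IsPGroup p M')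
    (hd : ∀ k, p ^ k ∣ Nat.card M' → p ^ k ∣ Nat.card M) : M = M' := by
  obtain ⟨k, hk⟩ := IsPGroup.iff_card.1 hM'
  apply Subgroup.eq_of_le_of_card_ge h
  rw [hk]
  exact Nat.le_of_dvd Nat.card_pos (hd k (by rw [hk]))

lemma sylIn_conj {L M R : Subgroup G} (hM : SylIn p L M) (hR : R ≤ L) (hRp : IsPGroup p R) :
    ∃ g ∈ L, ∀ y ∈ R, g * y * g⁻¹ ∈ M := by
  have h1 : IsPGroup p (R.subgroupOf L) := hRp.comap_subtype
  obtain ⟨Q, hQ⟩ := h1.exists_le_sylow
  have h2 : IsPGroup p (M.subgroupOf L) := hM.pg.comap_subtype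
  obtain ⟨Q', hQ'⟩ := h2.exists_le_sylow
  have h3 : M.subgroupOf L = (Q' : Subgroup L) := by
    apply eq_of_le_of_dvd hQ' Q'.2
    intro k hk
    have e : Nat.card (M.subgroupOf L) = Nat.card M :=
      Nat.card_congr (Subgroup.subgroupOfEquivOfLe hM.le).toEquiv
    rw [e]
    exact hM.dvd k (hk.trans (Subgroup.card_subgroup_dvd_card _))
  obtain ⟨g, hg⟩ := MulAction.exists_smul_eq L Q Q'
  refine ⟨g, g.2, fun y hy => ?_⟩
  have h4 : (⟨y, hR hy⟩ : L) ∈ (Q : Subgroup L) := hQ (by rwa [mem_subgroupOf])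
  have h5 : g * ⟨y, hR hy⟩ * g⁻¹ ∈ (Q' : Subgroup L) := by
    rw [← hg, Sylow.coe_subgroup_smul]
    exact Subgroup.smul_mem_pointwise_smul (⟨y, hR hy⟩ : L) (MulAut.conj g) (Q : Subgroup L) h4
  rw [← h3, mem_subgroupOf] at h5
  exact h5

/-- the normalizer condition inside a `p`-group -/
lemma lt_inf_normalizer {P S : Subgroup G} (hS : IsPGroup p S) (h : P < S) :
    P < S ⊓ normalizer (P : Set G) := by
  have hn : Group.IsNilpotent S := hS.isNilpotent
  have hc : NormalizerCondition S := Group.normalizerCondition_of_isNilpotent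
  have h1 : P.subgroupOf S < ⊤ := by
    rw [lt_top_iff_ne_top]
    intro h2
    rw [subgroupOf_eq_top] at h2
    exact absurd (le_antisymm h.le h2) h.ne
  have h2 := hc _ h1
  obtain ⟨s, hs, hs'⟩ := Set.exists_of_ssubset h2
  refine lt_of_le_of_ne (le_inf h.le le_normalizer) ?_
  intro h3
  apply hs'
  show s ∈ P.subgroupOf S
  rw [mem_subgroupOf, h3, mem_inf]
  refine ⟨s.2, ?_⟩
  rw [mem_normalizer_iff]
  have h4 : s ∈ normalizer ((P.subgroupOf S : Subgroup S) : Set S) := hs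
  rw [mem_normalizer_iff] at h4
  intro y
  constructor
  · intro hy
    exact (h4 ⟨y, h.le hy⟩).1 hy
  · intro hy
    have hyS : y ∈ S := by
      have := h.le hy
      have h5 := S.mul_mem (S.mul_mem (S.inv_mem s.2) this) s.2
      have e : (s : G)⁻¹ * (s * y * (s : G)⁻¹) * s = y := by group
      rwa [e] at h5
    exact (h4 ⟨y, hyS⟩).2 hy

end Pool.Agent.V7H53.FS
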